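import Mathlib
import Pool.Agent.W188.Mom.B4

/-!
# Increasing functions of zeta on the critical line and on the points of one ray
-/

set_option autoImplicit false

namespace Pool.Agent.N534.RayPhi

open Complex Filter Topology Set Metric MeasureTheory

open Pool.Agent.W188.Mom

/-- the points of the ray in an interval -/
def RI (u : ℂ) (a b : ℝ) : Set ℝ := {v | a ≤ v ∧ v ∈ RP u b}

lemma RI_finite {u : ℂ} (hu : ‖u‖ = 1) (a b : ℝ) : (RI u a b).Finite :=
  (RP_finite hu b).subset fun _ hv => hv.2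

/-- nonnegative nondecreasing functions on the half line -/
structure Adm (Φ : ℝ → ℝ) : Prop where
  mono : MonotoneOn Φ (Ici 0)
  nonneg : ∀ x, 0 ≤ x → 0 ≤ Φ x

lemma Adm.le {Φ : ℝ → ℝ} (h : Adm Φ) {x y : ℝ} (hx : 0 ≤ x) (hxy : x ≤ y) : Φ x ≤ Φ y :=
  h.mono hx (hx.trans hxy) hxy

lemma Adm.meas {Φ : ℝ → ℝ} (h : Adm Φ) (c : ℝ) (hc : 0 ≤ c) : Measurable fun t => Φ (c * Z t) := by
  have h1 : Monotone fun x : ℝ => Φ (max x 0) := fun x y hxy =>
    h.mono (mem_Ici.2 (le_max_right x 0)) (mem_Ici.2 (le_max_right y 0)) (max_le_max_right 0 hxy)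
  have h2 : (fun t => Φ (c * Z t)) = (fun x : ℝ => Φ (max x 0)) ∘ fun t => c * Z t := by
    funext t
    simp only [Function.comp]
    rw [max_eq_left (mul_nonneg hc (Z_nonneg t))]
  rw [h2]
  exact h1.measurable.comp (Z_cont.measurable.const_mul c)

lemma Adm.bdd {Φ : ℝ → ℝ} (h : Adm Φ) (c : ℝ) (hc : 0 ≤ c) (a b : ℝ) :
    ∃ K : ℝ, ∀ t ∈ Icc a b, Φ (c * Z t) ≤ K := by
  obtain ⟨A, hA⟩ := (isCompact_Icc (a := a) (b := b)).exists_bound_of_continuousOn
    Z_cont.continuousOn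
  refine ⟨Φ (c * A), fun t ht => h.le (mul_nonneg hc (Z_nonneg t)) ?_⟩
  exact mul_le_mul_of_nonneg_left ((le_abs_self _).trans (hA t ht)) hc

lemma Adm.int {Φ : ℝ → ℝ} (h : Adm Φ) (c : ℝ) (hc : 0 ≤ c) (a b : ℝ) :
    IntervalIntegrable (fun t => Φ (c * Z t)) volume a b := by
  have key : ∀ a b : ℝ, a ≤ b → IntervalIntegrable (fun t => Φ (c * Z t)) volume a b := by
    intro a b hab
    obtain ⟨K, hK⟩ := h.bdd c hc a b
    rw [intervalIntegrable_iff_integrableOn_Icc_of_le hab]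
    refine Measure.integrableOn_of_bounded (M := K) ?_ (h.meas c hc).aestronglyMeasurable ?_
    · rw [Real.volume_Icc]
      exact ENNReal.ofReal_ne_top
    · rw [ae_restrict_iff' measurableSet_Icc]
      refine Eventually.of_forall fun t ht => ?_
      rw [Real.norm_of_nonneg (h.nonneg _ (mul_nonneg hc (Z_nonneg t)))]
      exact hK t ht
  rcases le_total a b with hab | hab
  · exact key a b hab
  · exact (key b a hab).symm

lemma Adm.int_le {Φ : ℝ → ℝ} (h : Adm Φ) (c : ℝ) (hc : 0 ≤ c) {a b K : ℝ} (hab : a ≤ b)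
    (hK : ∀ t ∈ Icc a b, Φ (c * Z t) ≤ K) : ∫ t in a..b, Φ (c * Z t) ≤ (b - a) * K := by
  have h1 := intervalIntegral.integral_mono_on hab (h.int c hc a b)
    (intervalIntegrable_const (c := K)) hK
  rwa [intervalIntegral.integral_const, smul_eq_mul] at h1

lemma Adm.int_nonneg {Φ : ℝ → ℝ} (h : Adm Φ) (c : ℝ) (hc : 0 ≤ c) {a b : ℝ} (hab : a ≤ b) :
    0 ≤ ∫ t in a..b, Φ (c * Z t) :=
  intervalIntegral.integral_nonneg hab fun t _ => h.nonneg _ (mul_nonneg hc (Z_nonneg t))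

lemma Adm.int_mono {Φ : ℝ → ℝ} (h : Adm Φ) (c : ℝ) (hc : 0 ≤ c) {a b a' b' : ℝ} (h1 : a' ≤ a)
    (h2 : a ≤ b) (h3 : b ≤ b') : ∫ t in a..b, Φ (c * Z t) ≤ ∫ t in a'..b', Φ (c * Z t) :=
  intervalIntegral.integral_mono_interval h1 h2 h3
    (Eventually.of_forall fun t => h.nonneg _ (mul_nonneg hc (Z_nonneg t))) (h.int c hc _ _)

lemma log_one {T : ℝ} (hT : 1000 ≤ T) : 1 ≤ Real.log T := by
  rw [Real.le_log_iff_exp_le (by linarith)]
  have := Real.exp_one_lt_d9
  linarith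

/-- **the majorant** -/
theorem majorant : ∃ C N : ℝ, 1 ≤ C ∧ 1000 ≤ N ∧ ∀ T a b : ℝ, N ≤ a → a ≤ b → b ≤ T →
    ∀ u : ℂ, (hu : ‖u‖ = 1) → ∀ Φ : ℝ → ℝ, Adm Φ →
      ∫ t in a..b, Φ (1 * Z t) ≤ C * Real.log T * ((b - a + 1) * Φ (C * Real.log T) +
        ∑ v ∈ (RI_finite hu (a - C * Real.log T) (b + C * Real.log T)).toFinset,
          Φ (C * Real.log T * Z v)) := by
  classical
  obtain ⟨C, N, hC, hN, hunit⟩ := unit_int
  refine ⟨3 * C + 3, N + 1, by linarith, by linarith, fun T a b ha hab hbT u hu Φ hΦ => ?_⟩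
  have hT1000 : 1000 ≤ T := by linarith
  have hlogT := log_one hT1000
  obtain ⟨K, hK⟩ : ∃ K, K = C * Real.log T := ⟨_, rfl⟩
  obtain ⟨K', hK'⟩ : ∃ K', K' = (3 * C + 3) * Real.log T := ⟨_, rfl⟩
  rw [← hK']
  have hK1 : 1 ≤ K := by rw [hK]; nlinarith
  have hKK : K + 1 ≤ K' := by rw [hK, hK']; nlinarith
  have hKK2 : 2 * K + 1 ≤ K' := by rw [hK, hK']; nlinarith
  have hK2 : 2 ≤ K' := by linarith
  obtain ⟨F, hF⟩ : ∃ F, F = (RI_finite hu (a - K') (b + K')).toFinset := ⟨_, rfl⟩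
  rw [← hF]
  obtain ⟨m, hm⟩ : ∃ m, m = ⌊a⌋₊ := ⟨_, rfl⟩
  obtain ⟨M, hM⟩ : ∃ M, M = ⌊b⌋₊ := ⟨_, rfl⟩
  have ma : (m : ℝ) ≤ a := by rw [hm]; exact Nat.floor_le (by linarith)
  have ma' : a < m + 1 := by rw [hm]; exact Nat.lt_floor_add_one a
  have Mb : (M : ℝ) ≤ b := by rw [hM]; exact Nat.floor_le (by linarith)
  have Mb' : b < M + 1 := by rw [hM]; exact Nat.lt_floor_add_one b
  have hmM : m ≤ M := by rw [hm, hM]; exact Nat.floor_le_floor hab
  have hmM1 : m ≤ M + 1 := by omega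
  obtain ⟨S, hS⟩ : ∃ S, S = Finset.Ico m (M + 1) := ⟨_, rfl⟩
  have hsplit : ∫ t in a..b, Φ (1 * Z t) ≤
      ∑ n ∈ S, ∫ t in (n : ℝ)..((n + 1 : ℕ) : ℝ), Φ (1 * Z t) := by
    have h1 : ∑ n ∈ S, ∫ t in (n : ℝ)..((n + 1 : ℕ) : ℝ), Φ (1 * Z t) =
        ∫ t in (m : ℝ)..((M + 1 : ℕ) : ℝ), Φ (1 * Z t) := by
      rw [hS]
      exact intervalIntegral.sum_integral_adjacent_intervals_Ico hmM1
        (fun k _ => hΦ.int 1 zero_le_one _ _)
    rw [h1]
    apply hΦ.int_mono 1 zero_le_one ma hab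
    push_cast
    exact Mb'.le
  obtain ⟨P, hP⟩ : ∃ P : ℕ → Prop, P = fun n : ℕ => ∃ v ∈ RP u (2 * T), |(n : ℝ) - v| ≤ K ∧
        ∀ t ∈ Icc (n : ℝ) (n + 1), Z t ≤ K * Z v := ⟨_, rfl⟩
  have hex : ∀ n : ℕ, ∃ v : ℝ, P n → (v ∈ RP u (2 * T) ∧ |(n : ℝ) - v| ≤ K ∧
        ∀ t ∈ Icc (n : ℝ) (n + 1), Z t ≤ K * Z v) := by
    intro n
    by_cases h : P n
    · rw [hP] at h
      obtain ⟨v, h1, h2, h3⟩ := h
      exact ⟨v, fun _ => ⟨h1, h2, h3⟩⟩
    · exact ⟨0, fun h' => absurd h' h⟩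
  choose w hw using hex
  have hΦK : 0 ≤ Φ K' := hΦ.nonneg _ (by linarith)
  have hpiece : ∀ n ∈ S, ∫ t in (n : ℝ)..((n + 1 : ℕ) : ℝ), Φ (1 * Z t) ≤
      Φ K' + (if P n then Φ (K' * Z (w n)) else 0) := by
    intro n hn
    rw [hS, Finset.mem_Ico] at hn
    have hn1 : N ≤ n := by
      have : (m : ℝ) ≤ n := by exact_mod_cast hn.1
      linarith
    have hn2 : (n : ℝ) ≤ T := by
      have h1 : n ≤ M := by omega
      have : (n : ℝ) ≤ M := by exact_mod_cast h1
      linarith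
    have e : ((n + 1 : ℕ) : ℝ) = (n : ℝ) + 1 := by push_cast; ring
    rw [e]
    by_cases h : P n
    · rw [if_pos h]
      obtain ⟨h1, h2, h3⟩ := hw n h
      have h4 := hΦ.int_le 1 zero_le_one (a := (n : ℝ)) (b := (n : ℝ) + 1) (by linarith)
        (K := Φ (K' * Z (w n))) (fun t ht => by
          rw [one_mul]
          refine hΦ.le (Z_nonneg t) ((h3 t ht).trans ?_)
          exact mul_le_mul_of_nonneg_right (by linarith) (Z_nonneg _))
      have e2 : ((n : ℝ) + 1 - n) = 1 := by ring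
      rw [e2, one_mul] at h4
      linarith
    · rw [if_neg h, add_zero]
      rcases hunit T (by linarith) u hu n hn1 hn2 with h1 | h1
      · have h4 := hΦ.int_le 1 zero_le_one (a := (n : ℝ)) (b := (n : ℝ) + 1) (by linarith)
          (K := Φ K') (fun t ht => by
            rw [one_mul]
            refine hΦ.le (Z_nonneg t) ((h1 t ht).trans ?_)
            rw [← hK]
            linarith)
        have e2 : ((n : ℝ) + 1 - n) = 1 := by ring
        rw [e2, one_mul] at h4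
        exact h4
      · refine absurd ?_ h
        rw [hP, hK]
        exact h1
  have hsum : ∑ n ∈ S, (if P n then Φ (K' * Z (w n)) else 0) ≤
      K' * ∑ v ∈ F, Φ (K' * Z v) := by
    rw [← Finset.sum_filter]
    have hmaps : ∀ n ∈ S.filter P, w n ∈ F := by
      intro n hn
      rw [Finset.mem_filter, hS, Finset.mem_Ico] at hn
      obtain ⟨h1, h2, -⟩ := hw n hn.2
      rw [hF, Set.Finite.mem_toFinset]
      have h3 := abs_le.1 h2
      have hnm : (m : ℝ) ≤ n := by exact_mod_cast hn.1.1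
      have hnM : (n : ℝ) ≤ M := by
        have : n ≤ M := by omega
        exact_mod_cast this
      exact ⟨by linarith, h1.1, by linarith, h1.2.2⟩
    rw [← Finset.sum_fiberwise_of_maps_to hmaps, Finset.mul_sum]
    refine Finset.sum_le_sum fun v _ => ?_
    have h1 : ∀ n ∈ (S.filter P).filter (fun n => w n = v), Φ (K' * Z (w n)) ≤ Φ (K' * Z v) := by
      intro n hn
      rw [Finset.mem_filter] at hn
      rw [hn.2]
    refine (Finset.sum_le_card_nsmul _ _ _ h1).trans ?_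
    rw [nsmul_eq_mul]
    apply mul_le_mul_of_nonneg_right _ (hΦ.nonneg _ (mul_nonneg (by linarith) (Z_nonneg _)))
    refine (card_near _ v K (by linarith) fun n hn => ?_).trans hKK2
    rw [Finset.mem_filter, Finset.mem_filter] at hn
    have := (hw n hn.1.2).2.1
    rwa [hn.2] at this
  have hcard : (S.card : ℝ) ≤ K' * (b - a + 1) := by
    have h1 : (S.card : ℝ) = M + 1 - m := by
      rw [hS, Nat.card_Ico]
      push_cast [Nat.cast_sub hmM1]
      ring
    rw [h1]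
    nlinarith
  calc ∫ t in a..b, Φ (1 * Z t) ≤ _ := hsplit
    _ ≤ ∑ n ∈ S, (Φ K' + (if P n then Φ (K' * Z (w n)) else 0)) := Finset.sum_le_sum hpiece
    _ = S.card * Φ K' + ∑ n ∈ S, (if P n then Φ (K' * Z (w n)) else 0) := by
        rw [Finset.sum_add_distrib, Finset.sum_const, nsmul_eq_mul]
    _ ≤ K' * (b - a + 1) * Φ K' + K' * ∑ v ∈ F, Φ (K' * Z v) :=
        add_le_add (mul_le_mul_of_nonneg_right hcard hΦK) hsum
    _ = _ := by ring

/-- the value at one point -/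
lemma point {ε : ℝ} (hε : 0 < ε) : ∃ B : ℝ, 1 ≤ B ∧ ∀ v : ℝ, 100 ≤ v → ∀ Φ : ℝ → ℝ, Adm Φ →
    Φ (Z v) ≤ Φ (B * v ^ ε) + B * ∫ t in (v - 1)..(v + 1), Φ (v ^ ε * Z t) := by
  set e : ℝ := ε / 2 with he
  have he0 : 0 < e := by positivity
  have hex : ∀ j : ℕ, ∃ δ T₀ : ℝ, 0 < δ ∧ 8 ≤ T₀ ∧ ∀ T : ℝ, T₀ ≤ T → ∀ h : ℝ, 0 < h → h ≤ 1 →
      T ^ (((j : ℝ) + 2) * e) ≤ ‖riemannZeta (1 / 2 + T * Complex.I)‖ →
      ENNReal.ofReal (δ * h) < volume (Pool.Agent.H983R4.LH.Ex (((j : ℝ) + 1) * e) T h) := by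
    intro j
    obtain ⟨δ, hδ, T₀, h8, h⟩ := Pool.Agent.H983R4.LH.main_local (κ := ((j : ℝ) + 1) * e)
      (μ := ((j : ℝ) + 2) * e) (by positivity) (by nlinarith)
    exact ⟨δ, T₀, hδ, h8, h⟩
  choose δ T₀ hδ h8 hper using hex
  obtain ⟨J, hJ⟩ := exists_nat_gt (2 / e)
  set A : ℝ := 1 + ∑ j ∈ Finset.range (J + 1), 1 / δ j with hA
  set V : ℝ := 100 + ∑ j ∈ Finset.range (J + 1), T₀ j with hV
  have hδsum : ∀ j ∈ Finset.range (J + 1), 0 ≤ 1 / δ j := fun j _ => by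
    have := hδ j; positivity
  have hTsum : ∀ j ∈ Finset.range (J + 1), 0 ≤ T₀ j := fun j _ => by linarith [h8 j]
  have hA1 : 1 ≤ A := by
    have := Finset.sum_nonneg hδsum
    linarith
  obtain ⟨B0, hB0⟩ := (isCompact_Icc (a := (0 : ℝ)) (b := V)).exists_bound_of_continuousOn
    Z_cont.continuousOn
  refine ⟨A + |B0|, by linarith [abs_nonneg B0], fun v hv Φ hΦ => ?_⟩
  have hv0 : 0 < v := by linarith
  have hvε : 1 ≤ v ^ ε := Real.one_le_rpow (by linarith) hε.le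
  have hvε0 : 0 ≤ v ^ ε := by linarith
  have hI : 0 ≤ ∫ t in (v - 1)..(v + 1), Φ (v ^ ε * Z t) :=
    hΦ.int_nonneg _ hvε0 (by linarith)
  have hB : 0 ≤ A + |B0| := by linarith [abs_nonneg B0]
  have hBI : 0 ≤ (A + |B0|) * ∫ t in (v - 1)..(v + 1), Φ (v ^ ε * Z t) := mul_nonneg hB hI
  have hBv : 0 ≤ (A + |B0|) * v ^ ε := mul_nonneg hB hvε0
  rcases lt_or_ge v V with hvV | hvV
  · have h1 : Z v ≤ (A + |B0|) * v ^ ε := by
      have h2 := hB0 v ⟨by linarith, hvV.le⟩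
      rw [Real.norm_of_nonneg (Z_nonneg v)] at h2
      have h3 := h2.trans (le_abs_self B0)
      nlinarith [abs_nonneg B0]
    have := hΦ.le (Z_nonneg v) h1
    linarith
  rcases le_or_gt (Z v) (v ^ ε) with h | h
  · have h1 : Z v ≤ (A + |B0|) * v ^ ε := by nlinarith [abs_nonneg B0]
    have := hΦ.le (Z_nonneg v) h1
    linarith
  · -- choose the scale
    set μ : ℝ := Real.log (Z v) / Real.log v with hμ
    have hlog : 0 < Real.log v := Real.log_pos (by linarith)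
    have hZ0 : 0 < Z v := lt_trans (by positivity) h
    have hZμ : Z v = v ^ μ := by
      rw [Real.rpow_def_of_pos hv0, hμ, mul_div_cancel₀ _ hlog.ne', Real.exp_log hZ0]
    have h2e : 2 * e = ε := by rw [he]; ring
    have hμ1 : 2 * e < μ := by
      rw [h2e]
      rw [hZμ] at h
      exact (Real.rpow_lt_rpow_left_iff (by linarith)).1 h
    have hμ2 : μ ≤ 2 := by
      have h1 := Z_le_sq hv
      rw [hZμ, ← Real.rpow_natCast] at h1
      have := (Real.rpow_le_rpow_left_iff (by linarith : 1 < v)).1 h1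
      exact_mod_cast this
    set q : ℝ := μ / e - 2 with hq
    have hq0 : 0 ≤ q := by
      rw [hq, sub_nonneg, le_div_iff₀ he0]
      exact hμ1.le
    set j : ℕ := ⌊q⌋₊ with hj
    have hj1 : (j : ℝ) ≤ q := Nat.floor_le hq0
    have hj2 : q < j + 1 := Nat.lt_floor_add_one q
    have hqe : (q + 2) * e = μ := by rw [hq]; field_simp; ring
    have hjJ : j ∈ Finset.range (J + 1) := by
      rw [Finset.mem_range]
      have h1 : q < J := by
        have h2 : μ / e ≤ 2 / e := div_le_div_of_nonneg_right hμ2 he0.le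
        linarith
      have h3 : (j : ℝ) < J := lt_of_le_of_lt hj1 h1
      have h4 : j < J := by exact_mod_cast h3
      omega
    have hTj : T₀ j ≤ v := by
      have := Finset.single_le_sum hTsum hjJ
      linarith
    have h1 : v ^ (((j : ℝ) + 2) * e) ≤ ‖riemannZeta (1 / 2 + v * Complex.I)‖ := by
      show _ ≤ Z v
      rw [hZμ]
      apply Real.rpow_le_rpow_of_exponent_le (by linarith)
      rw [← hqe]
      exact mul_le_mul_of_nonneg_right (by linarith) he0.le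
    have h2 := hper j v hTj 1 one_pos le_rfl h1
    have h4 : 1 / δ j ≤ A := by
      have := Finset.single_le_sum hδsum hjJ
      linarith
    have hkey : ∀ x ∈ Pool.Agent.H983R4.LH.Ex (((j : ℝ) + 1) * e) v 1, Φ (Z v) ≤ Φ (v ^ ε * Z x) := by
      intro x hx
      apply hΦ.le (Z_nonneg v)
      have h5 : μ ≤ ε + ((j : ℝ) + 1) * e := by
        have h6 : μ ≤ ((j : ℝ) + 3) * e := by
          rw [← hqe]
          exact mul_le_mul_of_nonneg_right (by linarith) he0.le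
        linarith
      calc Z v = v ^ μ := hZμ
        _ ≤ v ^ (ε + ((j : ℝ) + 1) * e) := Real.rpow_le_rpow_of_exponent_le (by linarith) h5
        _ = v ^ ε * v ^ (((j : ℝ) + 1) * e) := Real.rpow_add hv0 _ _
        _ ≤ v ^ ε * Z x := mul_le_mul_of_nonneg_left hx.2.le hvε0
    have hle : v - 1 ≤ v + 1 := by linarith
    have h6 : δ j * Φ (Z v) ≤ ∫ t in (v - 1)..(v + 1), Φ (v ^ ε * Z t) := by
      rw [intervalIntegral.integral_of_le hle]
      have hint : Integrable (fun t => Φ (v ^ ε * Z t)) (volume.restrict (Ioc (v - 1) (v + 1))) :=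
        (intervalIntegrable_iff_integrableOn_Ioc_of_le hle).1 (hΦ.int _ hvε0 _ _)
      have h1 := mul_meas_ge_le_integral_of_nonneg (μ := volume.restrict (Ioc (v - 1) (v + 1)))
        (f := fun t => Φ (v ^ ε * Z t))
        (Eventually.of_forall fun t => hΦ.nonneg _ (mul_nonneg hvε0 (Z_nonneg t)))
        hint (Φ (Z v))
      refine le_trans ?_ h1
      rw [mul_comm]
      apply mul_le_mul_of_nonneg_left _ (hΦ.nonneg _ (Z_nonneg v))
      have hmeas : MeasurableSet {x : ℝ | Φ (Z v) ≤ Φ (v ^ ε * Z x)} :=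
        measurableSet_le measurable_const (hΦ.meas _ hvε0)
      rw [measureReal_def, Measure.restrict_apply hmeas]
      have hfin : volume ({x : ℝ | Φ (Z v) ≤ Φ (v ^ ε * Z x)} ∩ Ioc (v - 1) (v + 1)) ≠ ⊤ := by
        refine ne_top_of_le_ne_top ?_ (measure_mono inter_subset_right)
        rw [Real.volume_Ioc]
        exact ENNReal.ofReal_ne_top
      have hsub : Pool.Agent.H983R4.LH.Ex (((j : ℝ) + 1) * e) v 1 ⊆
          ({x : ℝ | Φ (Z v) ≤ Φ (v ^ ε * Z x)} ∩ Ioc (v - 1) (v + 1)) ∪ {v - 1} := by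
        intro x hx
        have hx3 := abs_le.1 hx.1
        by_cases hx4 : x = v - 1
        · right; exact hx4
        · left
          exact ⟨hkey x hx, lt_of_le_of_ne (by linarith [hx3.1]) (Ne.symm hx4), by linarith [hx3.2]⟩
      have h3 : volume (Pool.Agent.H983R4.LH.Ex (((j : ℝ) + 1) * e) v 1) ≤
          volume ({x : ℝ | Φ (Z v) ≤ Φ (v ^ ε * Z x)} ∩ Ioc (v - 1) (v + 1)) := by
        refine (measure_mono hsub).trans ((measure_union_le _ _).trans ?_)
        rw [Real.volume_singleton, add_zero]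
      rw [mul_one] at h2
      have h5 := h2.le.trans h3
      rw [ENNReal.ofReal_le_iff_le_toReal hfin] at h5
      exact h5
    have h7 : Φ (Z v) ≤ 1 / δ j * ∫ t in (v - 1)..(v + 1), Φ (v ^ ε * Z t) := by
      rw [one_div, ← div_eq_inv_mul, le_div_iff₀ (hδ j), mul_comm]
      exact h6
    have h8 : 1 / δ j * ∫ t in (v - 1)..(v + 1), Φ (v ^ ε * Z t) ≤
        (A + |B0|) * ∫ t in (v - 1)..(v + 1), Φ (v ^ ε * Z t) :=
      mul_le_mul_of_nonneg_right (by linarith [abs_nonneg B0]) hI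
    have h9 := hΦ.nonneg _ hBv
    linarith

/-- the number of the points -/
lemma count {u : ℂ} (hu : ‖u‖ = 1) {a b T : ℝ} (hab : a ≤ b) (hT : 1 ≤ T) (S : Finset ℝ)
    (hS : ∀ v ∈ S, v ∈ RP u T ∧ a ≤ v ∧ v ≤ b) :
    (S.card : ℝ) ≤ (b - a) * (8 * Real.log T) + 1 := by
  have hlog : 0 ≤ Real.log T := Real.log_nonneg hT
  have hinj := RP_inj hu (T := T) (a := a)
  have h1 : S.card ≤ (Finset.range (⌊(b - a) * (8 * Real.log T)⌋₊ + 1)).card := by
    apply Finset.card_le_card_of_injOn (fun v : ℝ => ⌊(v - a) * (8 * Real.log T)⌋₊)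
    · intro v hv
      obtain ⟨h1, h2, h3⟩ := hS v hv
      simp only [Finset.coe_range, mem_Iio]
      apply Nat.lt_succ_of_le
      apply Nat.floor_le_floor
      exact mul_le_mul_of_nonneg_right (by linarith) (by positivity)
    · intro v hv v' hv' h
      obtain ⟨h1, h2, h3⟩ := hS v hv
      obtain ⟨h1', h2', h3'⟩ := hS v' hv'
      exact hinj ⟨h1, h2⟩ ⟨h1', h2'⟩ h
  rw [Finset.card_range] at h1
  have h2 : (S.card : ℝ) ≤ (⌊(b - a) * (8 * Real.log T)⌋₊ : ℝ) + 1 := by exact_mod_cast h1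
  have h3 := Nat.floor_le (show 0 ≤ (b - a) * (8 * Real.log T) by
    have : 0 ≤ b - a := by linarith
    positivity)
  linarith

/-- the sum of the means -/
lemma sum_means {u : ℂ} (hu : ‖u‖ = 1) {a b T : ℝ} (hab : a ≤ b) (hT : 100 ≤ T)
    (S : Finset ℝ) (hS : ∀ v ∈ S, v ∈ RP u T ∧ a ≤ v ∧ v ≤ b) {Φ : ℝ → ℝ} (hΦ : Adm Φ) (c : ℝ)
    (hc : 0 ≤ c) : ∑ v ∈ S, ∫ t in (v - 1)..(v + 1), Φ (c * Z t) ≤
      (16 * Real.log T + 1) * ∫ t in (a - 1)..(b + 1), Φ (c * Z t) := by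
  classical
  have hlog : 0 ≤ Real.log T := Real.log_nonneg (by linarith)
  have hle : a - 1 ≤ b + 1 := by linarith
  have h1 : ∀ v ∈ S, ∫ t in (v - 1)..(v + 1), Φ (c * Z t) =
      ∫ t in Ioc (a - 1) (b + 1), (Ioc (v - 1) (v + 1)).indicator (fun t => Φ (c * Z t)) t := by
    intro v hv
    obtain ⟨-, h2, h3⟩ := hS v hv
    rw [intervalIntegral.integral_of_le (by linarith), setIntegral_indicator measurableSet_Ioc]
    congr 2
    rw [inter_eq_right.2]
    exact Ioc_subset_Ioc (by linarith) (by linarith)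
  rw [Finset.sum_congr rfl h1]
  have hint : IntegrableOn (fun t => Φ (c * Z t)) (Ioc (a - 1) (b + 1)) volume :=
    (intervalIntegrable_iff_integrableOn_Ioc_of_le hle).1 (hΦ.int c hc _ _)
  rw [← integral_finsetSum S (fun v _ => hint.indicator measurableSet_Ioc),
    intervalIntegral.integral_of_le hle, ← integral_const_mul]
  refine setIntegral_mono_on (integrable_finsetSum S fun v _ => hint.indicator measurableSet_Ioc)
    (hint.const_mul _) measurableSet_Ioc fun t _ => ?_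
  have h0 : 0 ≤ Φ (c * Z t) := hΦ.nonneg _ (mul_nonneg hc (Z_nonneg t))
  have h2 : ∑ v ∈ S, (Ioc (v - 1) (v + 1)).indicator (fun t => Φ (c * Z t)) t =
      ((S.filter (fun v => t ∈ Ioc (v - 1) (v + 1))).card : ℝ) * Φ (c * Z t) := by
    rw [← nsmul_eq_mul, ← Finset.sum_const, Finset.sum_filter]
    refine Finset.sum_congr rfl fun v _ => ?_
    rw [Set.indicator_apply]
  rw [h2]
  apply mul_le_mul_of_nonneg_right _ h0
  refine (count hu (a := t - 1) (b := t + 1) (T := T) (by linarith) (by linarith) _ ?_).trans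
    (by nlinarith)
  intro v hv
  rw [Finset.mem_filter] at hv
  obtain ⟨h3, h4, h5⟩ := hv
  exact ⟨(hS v h3).1, by linarith, by linarith⟩

/-- **the minorant** -/
theorem minorant {ε : ℝ} (hε : 0 < ε) : ∃ B : ℝ, 1 ≤ B ∧ ∀ T a b : ℝ, 100 ≤ a → a ≤ b → b ≤ T →
    ∀ u : ℂ, (hu : ‖u‖ = 1) → ∀ Φ : ℝ → ℝ, Adm Φ →
      ∑ v ∈ (RI_finite hu a b).toFinset, Φ (Z v) ≤ B * Real.log T *
        ((b - a + 1) * Φ (B * T ^ ε) + ∫ t in (a - 1)..(b + 1), Φ (T ^ ε * Z t)) := by
  classical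
  obtain ⟨B, hB, hpt⟩ := point hε
  refine ⟨17 * B, by linarith, fun T a b ha hab hbT u hu Φ hΦ => ?_⟩
  have hT : 100 ≤ T := by linarith
  have hlog1 : 1 ≤ Real.log T := by
    rw [Real.le_log_iff_exp_le (by linarith)]
    have := Real.exp_one_lt_d9
    linarith
  have hTε : 0 ≤ T ^ ε := by positivity
  obtain ⟨S, hS⟩ : ∃ S, S = (RI_finite hu a b).toFinset := ⟨_, rfl⟩
  rw [← hS]
  have hSm : ∀ v ∈ S, v ∈ RP u T ∧ a ≤ v ∧ v ≤ b := by
    intro v hv
    rw [hS, Set.Finite.mem_toFinset] at hv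
    obtain ⟨h1, h2, h3, h4⟩ := hv
    exact ⟨⟨h2, h3.trans hbT, h4⟩, h1, h3⟩
  have hterm : ∀ v ∈ S, Φ (Z v) ≤ Φ (17 * B * T ^ ε) +
      B * ∫ t in (v - 1)..(v + 1), Φ (T ^ ε * Z t) := by
    intro v hv
    obtain ⟨h1, h2, h3⟩ := hSm v hv
    have hv0 : 0 ≤ v := by linarith
    have hvT : v ^ ε ≤ T ^ ε := Real.rpow_le_rpow hv0 (by linarith) hε.le
    have hvε : 0 ≤ v ^ ε := by positivity
    refine (hpt v (by linarith) Φ hΦ).trans (add_le_add ?_ ?_)
    · apply hΦ.le (by positivity)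
      have : B * v ^ ε ≤ B * T ^ ε := mul_le_mul_of_nonneg_left hvT (by linarith)
      nlinarith
    · apply mul_le_mul_of_nonneg_left _ (by linarith)
      apply intervalIntegral.integral_mono_on (by linarith) (hΦ.int _ hvε _ _)
        (hΦ.int _ hTε _ _)
      intro t _
      exact hΦ.le (mul_nonneg hvε (Z_nonneg t)) (mul_le_mul_of_nonneg_right hvT (Z_nonneg t))
  have h1 := Finset.sum_le_sum hterm
  rw [Finset.sum_add_distrib, Finset.sum_const, nsmul_eq_mul, ← Finset.mul_sum] at h1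
  have h2 := count hu hab (by linarith) S hSm
  have h3 := sum_means hu hab hT S hSm hΦ _ hTε
  have h4 : 0 ≤ Φ (17 * B * T ^ ε) := hΦ.nonneg _ (by positivity)
  have h5 : 0 ≤ ∫ t in (a - 1)..(b + 1), Φ (T ^ ε * Z t) := hΦ.int_nonneg _ hTε (by linarith)
  have h6 : (S.card : ℝ) * Φ (17 * B * T ^ ε) ≤
      17 * B * Real.log T * ((b - a + 1) * Φ (17 * B * T ^ ε)) := by
    rw [← mul_assoc]
    apply mul_le_mul_of_nonneg_right _ h4
    refine h2.trans ?_
    have h7 : 0 ≤ b - a := by linarith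
    have h8 : (b - a) * Real.log T ≤ (b - a) * (B * Real.log T) :=
      mul_le_mul_of_nonneg_left (by nlinarith) h7
    nlinarith
  have h7 : B * ∑ v ∈ S, ∫ t in (v - 1)..(v + 1), Φ (T ^ ε * Z t) ≤
      17 * B * Real.log T * ∫ t in (a - 1)..(b + 1), Φ (T ^ ε * Z t) := by
    calc _ ≤ B * ((16 * Real.log T + 1) * ∫ t in (a - 1)..(b + 1), Φ (T ^ ε * Z t)) :=
          mul_le_mul_of_nonneg_left h3 (by linarith)
      _ = (B * (16 * Real.log T + 1)) * ∫ t in (a - 1)..(b + 1), Φ (T ^ ε * Z t) := by ring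
      _ ≤ _ := by
          apply mul_le_mul_of_nonneg_right _ h5
          nlinarith
  rw [mul_add]
  linarith

lemma adm_rpow {p : ℝ} (hp : 0 < p) : Adm fun x : ℝ => x ^ p where
  mono := fun _ hx _ _ hxy => Real.rpow_le_rpow hx hxy hp.le
  nonneg := fun _ hx => Real.rpow_nonneg hx p

/-- powers of the logarithm are small -/
lemma log_small {δ : ℝ} (hδ : 0 < δ) (s c : ℝ) : ∀ᶠ T : ℝ in atTop,
    c * Real.log T ^ s ≤ Real.exp (Real.log T ^ δ) := by
  have h1 : Tendsto (fun T : ℝ => Real.log T ^ δ) atTop atTop :=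
    (tendsto_rpow_atTop hδ).comp Real.tendsto_log_atTop
  have h2 : ∀ᶠ y : ℝ in atTop, (|c| + 1) * y ^ (s / δ) ≤ Real.exp y := by
    have h3 := (isLittleO_rpow_exp_atTop (s / δ)).bound (show 0 < 1 / (|c| + 1) by positivity)
    filter_upwards [h3, eventually_ge_atTop 0] with y hy hy0
    rw [Real.norm_of_nonneg (Real.rpow_nonneg hy0 _), Real.norm_of_nonneg (Real.exp_pos y).le,
      one_div, ← div_eq_inv_mul, le_div_iff₀ (by positivity)] at hy
    linarith
  filter_upwards [h1.eventually h2, Real.tendsto_log_atTop.eventually_ge_atTop 1] with T h3 h4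
  have h5 : (Real.log T ^ δ) ^ (s / δ) = Real.log T ^ s := by
    rw [← Real.rpow_mul (by linarith)]
    congr 1
    field_simp
  rw [h5] at h3
  refine le_trans ?_ h3
  apply mul_le_mul_of_nonneg_right _ (Real.rpow_nonneg (by linarith) _)
  linarith [le_abs_self c]

/-- **the lower bound on a ray in windows** -/
theorem lower_windows {p δ : ℝ} (hp : 2 ≤ p) (hδ : 0 < δ) (hpδ : p + 1 < δ * (p ^ 2 / 4)) :
    ∃ c T₀ : ℝ, 0 < c ∧ ∀ T : ℝ, T₀ ≤ T → ∀ H : ℝ, Real.exp (Real.log T ^ δ) ≤ H → H ≤ T →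
      ∀ u : ℂ, (hu : ‖u‖ = 1) →
      c * (H * Real.log H ^ (p ^ 2 / 4)) / Real.log T ^ (p + 1) ≤
        ∑ v ∈ (RI_finite hu T (T + H)).toFinset, Z v ^ p := by
  obtain ⟨C, N, hC, hN, hmaj⟩ := majorant
  obtain ⟨c0, K0, hc0, _, hun⟩ := Pool.Agent.W181.Mom.uniform_real 1 one_pos (by
    rw [lt_div_iff₀ (Real.exp_pos 1)]
    have := Real.exp_one_lt_d9
    linarith)
  obtain ⟨B, hB, h2⟩ := hun (p / 2) (by linarith) c0 (Or.inl le_rfl)
  have haF := Pool.Agent.H306R2.aF_pos (by linarith : 0 < p / 2)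
  have hG : 0 < Real.Gamma ((p / 2) ^ 2 + 1) := Real.Gamma_pos_of_pos (by positivity)
  obtain ⟨c1, hc1⟩ : ∃ c1, c1 = Pool.Agent.H306R2.aF (p / 2) *
    (c0 * (1 ^ ((p / 2) ^ 2) / Real.Gamma ((p / 2) ^ 2 + 1))) := ⟨_, rfl⟩
  have hc10 : 0 < c1 := by rw [hc1]; positivity
  obtain ⟨q, hq⟩ : ∃ q, q = p ^ 2 / 4 := ⟨_, rfl⟩
  have hq0 : 0 < q := by rw [hq]; positivity
  have e1 : (p / 2) ^ 2 = q := by rw [hq]; ring
  have e2 : 2 * (p / 2) = p := by ring
  rw [← hq] at hpδ ⊢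
  obtain ⟨c2, hc2⟩ : ∃ c2, c2 = c1 / 2 * (1 / 2) ^ q / (2 * C) ^ (p + 1) := ⟨_, rfl⟩
  have hc20 : 0 < c2 := by rw [hc2]; positivity
  have hbig : ∀ᶠ T : ℝ in atTop, 2 / c2 ≤ Real.log T ^ (δ * q - (p + 1)) := by
    have h1 : Tendsto (fun T : ℝ => Real.log T ^ (δ * q - (p + 1))) atTop atTop :=
      (tendsto_rpow_atTop (by linarith)).comp Real.tendsto_log_atTop
    exact h1.eventually_ge_atTop _
  obtain ⟨T₁, hT₁⟩ := eventually_atTop.1 h2
  obtain ⟨T₂, hT₂⟩ := eventually_atTop.1 (hbig.and ((log_small hδ B (2 * 2 ^ B)).and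
    ((log_small hδ 1 (8 * C)).and (eventually_ge_atTop (max (max N T₁) 1000)))))
  refine ⟨c2 / 2, T₂, by positivity, fun T hT H hH1 hH2 u hu => ?_⟩
  obtain ⟨g1, g2, g3, g4⟩ := hT₂ T hT
  have hTN : N ≤ T := le_trans (le_trans (le_max_left _ _) (le_max_left _ _)) g4
  have hTT1 : T₁ ≤ T := le_trans (le_trans (le_max_right _ _) (le_max_left _ _)) g4
  have hT1000 : 1000 ≤ T := le_trans (le_max_right _ _) g4
  have hT0 : 0 < T := by linarith
  have hlog1 := log_one hT1000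
  have hlog0 : 0 < Real.log T := by linarith
  have hlog2 : Real.log (2 * T) ≤ 2 * Real.log T := by
    have h8 := Real.log_le_log (by linarith) (show 2 * T ≤ T ^ 2 by nlinarith)
    rw [Real.log_pow] at h8
    exact_mod_cast h8
  have hlog2' : Real.log T ≤ Real.log (2 * T) := Real.log_le_log hT0 (by linarith)
  rw [Real.rpow_one] at g3
  obtain ⟨K, hK⟩ : ∃ K, K = C * Real.log (2 * T) := ⟨_, rfl⟩
  have hK1 : 1 ≤ K := by rw [hK]; nlinarith
  have hKl : K ≤ 2 * C * Real.log T := by rw [hK]; nlinarith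
  have hKH : 4 * K ≤ H := by linarith
  have hH4 : 4 ≤ H := by linarith
  have hU : H / 2 ≤ H - 2 * K := by linarith
  have hKT : K ≤ T := by linarith
  -- the integral
  have h3 := hmaj (2 * T) (T + K) (T + H - K) (by linarith) (by linarith) (by linarith) u hu _
    (adm_rpow (show 0 < p by linarith))
  rw [← hK] at h3
  have e3 : T + K - K = T := by ring
  have e4 : T + H - K + K = T + H := by ring
  have e5 : T + H - K - (T + K) = H - 2 * K := by ring
  rw [e3, e4, e5] at h3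
  obtain ⟨S, hS⟩ : ∃ S, S = (RI_finite hu T (T + H)).toFinset := ⟨_, rfl⟩
  rw [← hS] at h3 ⊢
  have hK0 : 0 ≤ K := by linarith
  have h4 : ∑ v ∈ S, (K * Z v) ^ p = K ^ p * ∑ v ∈ S, Z v ^ p := by
    rw [Finset.mul_sum]
    exact Finset.sum_congr rfl fun v _ => Real.mul_rpow hK0 (Z_nonneg v)
  rw [h4] at h3
  have hSum : 0 ≤ ∑ v ∈ S, Z v ^ p := Finset.sum_nonneg fun v _ => Real.rpow_nonneg (Z_nonneg v) p
  have hKp : 0 ≤ K ^ p := Real.rpow_nonneg hK0 p
  have h5 : K * ((H - 2 * K + 1) * K ^ p + K ^ p * ∑ v ∈ S, Z v ^ p) ≤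
      K ^ (p + 1) * (H + ∑ v ∈ S, Z v ^ p) := by
    rw [Real.rpow_add (by linarith), Real.rpow_one]
    have h6 : K * ((H - 2 * K + 1) * K ^ p + K ^ p * ∑ v ∈ S, Z v ^ p) =
        K ^ p * K * ((H - 2 * K + 1) + ∑ v ∈ S, Z v ^ p) := by ring
    rw [h6]
    apply mul_le_mul_of_nonneg_left _ (mul_nonneg hKp hK0)
    linarith
  -- the lower bound of the integral
  have h6 := hT₁ (T + K) (by linarith) (H - 2 * K) (by
    have h7 : Real.log (T + K) ≤ 2 * Real.log T :=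
      (Real.log_le_log (by linarith) (by linarith)).trans hlog2
    have h8 : Real.log (T + K) ^ B ≤ (2 * Real.log T) ^ B :=
      Real.rpow_le_rpow (Real.log_nonneg (by linarith)) h7 hB.le
    rw [Real.mul_rpow (by norm_num) hlog0.le] at h8
    linarith)
  rw [e1, e2] at h6
  have e6 : T + K + (H - 2 * K) = T + H - K := by ring
  rw [e6] at h6
  have h7 : c1 * (H / 2 * ((1 / 2) ^ q * Real.log H ^ q)) ≤
      ∫ t in (T + K)..(T + H - K), ‖riemannZeta (1 / 2 + t * Complex.I)‖ ^ p := by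
    refine le_trans ?_ h6
    have e7 : Pool.Agent.H306R2.aF (p / 2) * (c0 * (1 ^ q / Real.Gamma (q + 1))) = c1 := by
      rw [hc1, e1]
    rw [e7]
    apply mul_le_mul_of_nonneg_left _ hc10.le
    have hlH : 0 ≤ Real.log H := Real.log_nonneg (by linarith)
    have h8 : 1 / 2 * Real.log H ≤ Real.log (H - 2 * K) := by
      have h9 : Real.log H ≤ 2 * Real.log (H / 2) := by
        have h10 := Real.log_le_log (by linarith) (show H ≤ (H / 2) ^ 2 by nlinarith)
        rw [Real.log_pow] at h10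
        exact_mod_cast h10
      have h11 := Real.log_le_log (by linarith) hU
      linarith
    have h9 : (1 / 2) ^ q * Real.log H ^ q ≤ Real.log (H - 2 * K) ^ q := by
      rw [← Real.mul_rpow (by norm_num) hlH]
      exact Real.rpow_le_rpow (by positivity) h8 hq0.le
    exact mul_le_mul hU h9 (by positivity) (by linarith)
  have h8 : ∫ t in (T + K)..(T + H - K), ‖riemannZeta (1 / 2 + t * Complex.I)‖ ^ p =
      ∫ t in (T + K)..(T + H - K), (1 * Z t) ^ p := by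
    simp only [one_mul]
    rfl
  rw [h8] at h7
  have h9 := h7.trans (h3.trans h5)
  have h10 : K ^ (p + 1) ≤ (2 * C) ^ (p + 1) * Real.log T ^ (p + 1) := by
    rw [← Real.mul_rpow (by linarith) hlog0.le]
    exact Real.rpow_le_rpow hK0 hKl (by linarith)
  have h11 : c1 * (H / 2 * ((1 / 2) ^ q * Real.log H ^ q)) ≤
      (2 * C) ^ (p + 1) * Real.log T ^ (p + 1) * (H + ∑ v ∈ S, Z v ^ p) :=
    h9.trans (mul_le_mul_of_nonneg_right h10 (by linarith))
  have hCp : 0 < (2 * C) ^ (p + 1) := Real.rpow_pos_of_pos (by linarith) _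
  have hLp : 0 < Real.log T ^ (p + 1) := Real.rpow_pos_of_pos hlog0 _
  have h12 : c2 * (H * Real.log H ^ q) ≤ Real.log T ^ (p + 1) * (H + ∑ v ∈ S, Z v ^ p) := by
    have e8 : c2 * (H * Real.log H ^ q) =
        c1 * (H / 2 * ((1 / 2) ^ q * Real.log H ^ q)) / (2 * C) ^ (p + 1) := by
      rw [hc2]; ring
    rw [e8, div_le_iff₀ hCp]
    linarith
  have h13 : Real.log T ^ (p + 1) ≤ c2 / 2 * Real.log H ^ q := by
    have h14 : Real.log T ^ δ ≤ Real.log H := by
      rw [Real.le_log_iff_exp_le (by linarith)]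
      exact hH1
    have h15 : Real.log T ^ (δ * q) ≤ Real.log H ^ q := by
      rw [Real.rpow_mul hlog0.le]
      exact Real.rpow_le_rpow (Real.rpow_nonneg hlog0.le _) h14 hq0.le
    have h16 : Real.log T ^ (δ * q) = Real.log T ^ (δ * q - (p + 1)) * Real.log T ^ (p + 1) := by
      rw [← Real.rpow_add hlog0]
      congr 1
      ring
    have h17 : 2 / c2 * Real.log T ^ (p + 1) ≤ Real.log H ^ q := by
      rw [h16] at h15
      exact (mul_le_mul_of_nonneg_right g1 hLp.le).trans h15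
    have h18 : c2 / 2 * (2 / c2 * Real.log T ^ (p + 1)) = Real.log T ^ (p + 1) := by
      field_simp
    rw [← h18]
    exact mul_le_mul_of_nonneg_left h17 (by positivity)
  rw [div_le_iff₀ hLp]
  have h14 : Real.log T ^ (p + 1) * H ≤ c2 / 2 * (H * Real.log H ^ q) := by
    have := mul_le_mul_of_nonneg_right h13 (show 0 ≤ H by linarith)
    linarith
  have h15 : c2 * (H * Real.log H ^ q) = c2 / 2 * (H * Real.log H ^ q) +
      c2 / 2 * (H * Real.log H ^ q) := by ring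
  linarith

end Pool.Agent.N534.RayPhi
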