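import Mathlib

/-!
# From continuous functionals to sets with a null frontier, for weighted families
-/

set_option autoImplicit false

namespace Pool.Agent.N534.SetsLim

open Filter Topology MeasureTheory

open scoped ENNReal NNReal

variable {E : Type} [PseudoEMetricSpace E] [MeasurableSpace E] [BorelSpace E]

/-- closed sets: the upper bound -/
lemma closed_upper {w : ℝ → ℝ} {g : ℝ → ℝ → ℝ} {P : ℝ → ℝ → E} {m : ℝ → Measure ℝ} {a : ℝ}
    {ν : Measure E} [IsProbabilityMeasure ν] (ha : 0 < a) (hw : ∀ᶠ T in atTop, 0 ≤ w T)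
    (hg : ∀ᶠ T in atTop, Integrable (g T) (m T) ∧ ∀ t, 0 ≤ g T t)
    (hP : ∀ᶠ T in atTop, Measurable (P T))
    (h : ∀ F : E → ℝ, Continuous F → (∀ f, |F f| ≤ 1) →
      Tendsto (fun T => w T * ∫ t, g T t * F (P T t) ∂(m T)) atTop (𝓝 (a * ∫ f, F f ∂ν)))
    {C : Set E} (hC : IsClosed C) (ε : ℝ) (hε : 0 < ε) :
    ∀ᶠ T in atTop, w T * ∫ t, g T t * C.indicator (fun _ => (1 : ℝ)) (P T t) ∂(m T) ≤
      a * ν.real C + ε := by
  have hδ : ∀ n : ℕ, (0 : ℝ) < 1 / ((n : ℝ) + 1) := fun n => by positivity
  have h1 := tendsto_lintegral_thickenedIndicator_of_isClosed ν hC hδ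
    tendsto_one_div_add_atTop_nhds_zero_nat
  have h2 := (ENNReal.tendsto_toReal (measure_ne_top ν C)).comp h1
  have h3 := h2.eventually (gt_mem_nhds (show (ν C).toReal < (ν C).toReal + ε / (2 * a) by
    have : 0 < ε / (2 * a) := by positivity
    linarith))
  obtain ⟨n, hn⟩ := h3.exists
  obtain ⟨F, hF⟩ : ∃ F : E → ℝ, F = fun f => ((thickenedIndicator (hδ n) C f : ℝ≥0) : ℝ) := ⟨_, rfl⟩
  have hFc : Continuous F := by
    rw [hF]
    exact NNReal.continuous_coe.comp (thickenedIndicator (hδ n) C).continuous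
  have hF0 : ∀ f, 0 ≤ F f := fun f => by rw [hF]; exact NNReal.coe_nonneg _
  have hF1 : ∀ f, F f ≤ 1 := fun f => by
    rw [hF]
    exact_mod_cast thickenedIndicator_le_one (hδ n) C f
  have hFa : ∀ f, |F f| ≤ 1 := fun f => by rw [abs_of_nonneg (hF0 f)]; exact hF1 f
  have hFC : ∀ f, C.indicator (fun _ => (1 : ℝ)) f ≤ F f := by
    intro f
    by_cases hf : f ∈ C
    · rw [Set.indicator_of_mem hf, hF]
      have := thickenedIndicator_one (hδ n) C hf
      simp only [this, NNReal.coe_one, le_refl]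
    · rw [Set.indicator_of_notMem hf]
      exact hF0 f
  have hFi : ∫ f, F f ∂ν = (∫⁻ f, (thickenedIndicator (hδ n) C f : ℝ≥0∞) ∂ν).toReal := by
    rw [integral_eq_lintegral_of_nonneg_ae (Eventually.of_forall hF0)
      hFc.measurable.aestronglyMeasurable]
    congr 1
    refine lintegral_congr fun f => ?_
    rw [hF]
    simp
  have h4 : ∫ f, F f ∂ν < ν.real C + ε / (2 * a) := by
    rw [hFi]
    exact hn
  have h5 := h F hFc hFa
  have h6 := h5.eventually (gt_mem_nhds (show a * ∫ f, F f ∂ν < a * ν.real C + ε by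
    have h7 := mul_lt_mul_of_pos_left h4 ha
    have h8 : a * (ν.real C + ε / (2 * a)) = a * ν.real C + ε / 2 := by
      field_simp
    linarith))
  filter_upwards [h6, hw, hg, hP] with T h7 h8 h9 h10
  refine le_trans (mul_le_mul_of_nonneg_left ?_ h8) h7.le
  obtain ⟨h11, h12⟩ := h9
  have hCm : Measurable fun t => C.indicator (fun _ => (1 : ℝ)) (P T t) :=
    (measurable_const.indicator hC.measurableSet).comp h10
  have hFm : Measurable fun t => F (P T t) := hFc.measurable.comp h10
  refine integral_mono (h11.mul_bdd (c := 1) hCm.aestronglyMeasurable (Eventually.of_forall fun t => ?_))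
    (h11.mul_bdd (c := 1) hFm.aestronglyMeasurable (Eventually.of_forall fun t => ?_))
    fun t => mul_le_mul_of_nonneg_left (hFC _) (h12 t)
  · rw [Real.norm_eq_abs]
    by_cases hf : P T t ∈ C
    · rw [Set.indicator_of_mem hf, abs_one]
    · rw [Set.indicator_of_notMem hf, abs_zero]
      exact zero_le_one
  · rw [Real.norm_eq_abs]
    exact hFa _

/-- **sets with a null frontier** -/
theorem sets {w : ℝ → ℝ} {g : ℝ → ℝ → ℝ} {P : ℝ → ℝ → E} {m : ℝ → Measure ℝ} {a : ℝ}
    {ν : Measure E} [IsProbabilityMeasure ν] (ha : 0 < a) (hw : ∀ᶠ T in atTop, 0 ≤ w T)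
    (hg : ∀ᶠ T in atTop, Integrable (g T) (m T) ∧ ∀ t, 0 ≤ g T t)
    (hP : ∀ᶠ T in atTop, Measurable (P T))
    (h : ∀ F : E → ℝ, Continuous F → (∀ f, |F f| ≤ 1) →
      Tendsto (fun T => w T * ∫ t, g T t * F (P T t) ∂(m T)) atTop (𝓝 (a * ∫ f, F f ∂ν)))
    {B : Set E} (hB : ν (frontier B) = 0) (hBm : MeasurableSet B) :
    Tendsto (fun T => w T * ∫ t, g T t * B.indicator (fun _ => (1 : ℝ)) (P T t) ∂(m T)) atTop
      (𝓝 (a * ν.real B)) := by
  have hmass := h (fun _ => 1) continuous_const (fun _ => by simp)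
  simp only [integral_const, probReal_univ, smul_eq_mul, mul_one] at hmass
  -- monotonicity
  have mono : ∀ᶠ T in atTop, ∀ S S' : Set E, MeasurableSet S → MeasurableSet S' → S ⊆ S' →
      w T * ∫ t, g T t * S.indicator (fun _ => (1 : ℝ)) (P T t) ∂(m T) ≤
      w T * ∫ t, g T t * S'.indicator (fun _ => (1 : ℝ)) (P T t) ∂(m T) := by
    filter_upwards [hw, hg, hP] with T h8 h9 h10 S S' hS hS' hSS
    obtain ⟨h11, h12⟩ := h9
    refine mul_le_mul_of_nonneg_left ?_ h8
    have bd : ∀ (S : Set E) (t : ℝ), ‖S.indicator (fun _ => (1 : ℝ)) (P T t)‖ ≤ 1 := by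
      intro S t
      rw [Real.norm_eq_abs]
      by_cases hf : P T t ∈ S
      · rw [Set.indicator_of_mem hf, abs_one]
      · rw [Set.indicator_of_notMem hf, abs_zero]
        exact zero_le_one
    refine integral_mono
      (h11.mul_bdd (c := 1) ((measurable_const.indicator hS).comp h10).aestronglyMeasurable
        (Eventually.of_forall (bd S)))
      (h11.mul_bdd (c := 1) ((measurable_const.indicator hS').comp h10).aestronglyMeasurable
        (Eventually.of_forall (bd S')))
      fun t => mul_le_mul_of_nonneg_left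
        (Set.indicator_le_indicator_of_subset hSS (fun _ => zero_le_one) _) (h12 t)
  -- complements
  have comp : ∀ᶠ T in atTop, ∀ S : Set E, MeasurableSet S →
      w T * ∫ t, g T t * S.indicator (fun _ => (1 : ℝ)) (P T t) ∂(m T) +
      w T * ∫ t, g T t * (Sᶜ).indicator (fun _ => (1 : ℝ)) (P T t) ∂(m T) =
      w T * ∫ t, g T t ∂(m T) := by
    filter_upwards [hg, hP] with T h9 h10 S hS
    obtain ⟨h11, h12⟩ := h9
    have bd : ∀ (S : Set E) (t : ℝ), ‖S.indicator (fun _ => (1 : ℝ)) (P T t)‖ ≤ 1 := by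
      intro S t
      rw [Real.norm_eq_abs]
      by_cases hf : P T t ∈ S
      · rw [Set.indicator_of_mem hf, abs_one]
      · rw [Set.indicator_of_notMem hf, abs_zero]
        exact zero_le_one
    have i1 : Integrable (fun t => g T t * S.indicator (fun _ => (1 : ℝ)) (P T t)) (m T) :=
      h11.mul_bdd (c := 1) ((measurable_const.indicator hS).comp h10).aestronglyMeasurable
        (Eventually.of_forall (bd S))
    have i2 : Integrable (fun t => g T t * (Sᶜ).indicator (fun _ => (1 : ℝ)) (P T t)) (m T) :=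
      h11.mul_bdd (c := 1) ((measurable_const.indicator hS.compl).comp h10).aestronglyMeasurable
        (Eventually.of_forall (bd Sᶜ))
    rw [← mul_add, ← integral_add i1 i2]
    congr 1
    refine integral_congr_ae (Eventually.of_forall fun t => ?_)
    simp only
    by_cases hf : P T t ∈ S
    · rw [Set.indicator_of_mem hf, Set.indicator_of_notMem (by simpa using hf)]
      ring
    · rw [Set.indicator_of_notMem hf, Set.indicator_of_mem (by simpa using hf)]
      ring
  have hcl : ν.real (closure B) = ν.real B := by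
    have h1 : ν (closure B) = ν B := measure_closure_of_null_frontier hB
    rw [measureReal_def, measureReal_def, h1]
  have hcl2 : ν.real (closure Bᶜ) = 1 - ν.real B := by
    have hB' : ν (frontier Bᶜ) = 0 := by rwa [frontier_compl]
    have h1 : ν (closure Bᶜ) = ν Bᶜ := measure_closure_of_null_frontier hB'
    rw [measureReal_def, h1, ← measureReal_def, probReal_compl_eq_one_sub hBm]
  rw [tendsto_order]
  constructor
  · intro y hy
    obtain ⟨ε, hε⟩ : ∃ ε, ε = (a * ν.real B - y) / 4 := ⟨_, rfl⟩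
    have hε0 : 0 < ε := by rw [hε]; linarith
    have h1 := closed_upper ha hw hg hP h (isClosed_closure (s := Bᶜ)) ε hε0
    have h2 := hmass.eventually (lt_mem_nhds (show a - ε < a by linarith))
    filter_upwards [h1, h2, mono, comp] with T g1 g2 g3 g4
    have g5 := g3 Bᶜ (closure Bᶜ) hBm.compl isClosed_closure.measurableSet subset_closure
    have g6 := g4 B hBm
    rw [hcl2] at g1
    linarith
  · intro y hy
    obtain ⟨ε, hε⟩ : ∃ ε, ε = (y - a * ν.real B) / 2 := ⟨_, rfl⟩
    have hε0 : 0 < ε := by rw [hε]; linarith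
    have h1 := closed_upper ha hw hg hP h (isClosed_closure (s := B)) ε hε0
    filter_upwards [h1, mono] with T g1 g3
    have g5 := g3 B (closure B) hBm isClosed_closure.measurableSet subset_closure
    rw [hcl] at g1
    linarith

end Pool.Agent.N534.SetsLim
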